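import Mathlib

set_option autoImplicit false

namespace Pool.Agent.Results.MP_89e789_an.No
open Matrix

/-- square and rectangular real matrices -/
abbrev Mat (a b : ℕ) := Matrix (Fin a) (Fin b) ℝ

/-- `ρ` is the largest eigenvalue (the spectral radius of a positive definite matrix) -/
def IsRho {a : ℕ} (A : Mat a a) (ρ : ℝ) : Prop :=
  IsGreatest {t : ℝ | ∃ v, v ≠ 0 ∧ A *ᵥ v = t • v} ρ

/-- the coarse-grid operator `A_c⁻¹ R A` with `R = r Pᵀ` -/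
noncomputable def Pi' {a b : ℕ} (r : ℝ) (A : Mat a a) (B : Mat b b) (P : Mat a b) : Mat b a :=
  B⁻¹ * (r • Pᵀ) * A

/-- one level `(A, B, P, Λ)` satisfies (G3), (R) and (A2) -/
def Level (CR C α r : ℝ) {a b : ℕ} (A : Mat a a) (B : Mat b b) (P : Mat a b) (Λ : ℝ) : Prop :=
  P.rank = b ∧ (r • Pᵀ) * A * P = (2 : ℝ) • B ∧ ∃ ρ, IsRho A ρ ∧ ρ ≤ Λ ∧ Λ ≤ CR * ρ ∧
    ∀ v, |(v - (P * Pi' r A B P) *ᵥ v) ⬝ᵥ A *ᵥ v| ≤
      C ^ (2 * α) / ρ ^ α * (A *ᵥ v ⬝ᵥ A *ᵥ v) ^ α * (v ⬝ᵥ A *ᵥ v) ^ (1 - α)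

/-- one step of the V-cycle recursion -/
noncomputable def step (m : ℕ) (r : ℝ) {a b : ℕ} (A : Mat a a) (B : Mat b b) (P : Mat a b)
    (Λ : ℝ) (E : Mat b b) : Mat a a :=
  (1 - Λ⁻¹ • A) ^ m * (1 - P * (1 - E) * Pi' r A B P) * (1 - Λ⁻¹ • A) ^ m

noncomputable def dA (η : ℝ) (l : ℕ) : Fin (l + 1) → ℝ := Fin.cons (η ^ 2) fun _ => 1
def PP (η c s : ℝ) (l : ℕ) : Mat (l + 2) (l + 1) := Matrix.of fun i j =>
  Fin.cases (Fin.cases (2 * c) (Fin.cases (2 * s * η) fun _ => 0) i)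
    (fun j' => if i = j'.succ.succ then 2 else 0) j

lemma dpos {η : ℝ} (h : 0 < η) (l : ℕ) (i : Fin (l + 1)) : 0 < dA η l i := by
  refine Fin.cases ?_ (fun _ => ?_) i <;> simp [dA, pow_pos h]

lemma dinv {η : ℝ} (h : 0 < η) (l : ℕ) :
    (diagonal (dA η l))⁻¹ = diagonal fun i => (dA η l i)⁻¹ :=
  Matrix.inv_eq_left_inv (by simp [(dpos h l _).ne'])

lemma g3 {η c s : ℝ} (h : c ^ 2 + s ^ 2 = 1) (l : ℕ) :
    ((1 / 2 : ℝ) • (PP η c s l)ᵀ) * diagonal (dA η (l + 1)) * PP η c s l =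
      (2 : ℝ) • diagonal (dA η l) := by
  ext i j
  rw [mul_apply]
  simp only [mul_diagonal]
  refine Fin.cases ?_ (fun i => ?_) i <;> refine Fin.cases ?_ (fun j => ?_) j <;>
    simp [PP, dA, Fin.sum_univ_succ, diagonal_apply, (Fin.succ_ne_zero _).symm]
  · linear_combination 2 * η ^ 2 * h
  · split_ifs <;> simp_all

lemma lev {η c s : ℝ} (h0 : 0 < η) (h1 : η ≤ 1) (hc : 2 * c ^ 2 = 1 + η) (hs : 2 * s ^ 2 = 1 - η)
    (l : ℕ) : Level 1 4 (1 / 2) (1 / 2) (diagonal (dA η (l + 1))) (diagonal (dA η l))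
      (PP η c s l) 1 := by
  have G := g3 (η := η) (show c ^ 2 + s ^ 2 = 1 by linarith) l
  refine ⟨le_antisymm (rank_le_width _) ?_, G, 1, ⟨⟨Pi.single 1 1, by simp, ?_⟩, ?_⟩, le_rfl,
    by simp, fun v => ?_⟩
  · have := rank_mul_le_right (((1 / 2 : ℝ) • (PP η c s l)ᵀ) * diagonal (dA η (l + 1))) (PP η c s l)
    rwa [G, rank_of_isUnit, Fintype.card_fin] at this
    rw [← diagonal_smul, isUnit_diagonal, Pi.isUnit_iff]
    exact fun i => by simpa using (dpos h0 l i).ne'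
  · rw [diagonal_mulVec_single, one_smul]; simp [dA]
  · rintro t ⟨v, hv, e⟩
    obtain ⟨i, hi⟩ := Function.ne_iff.1 hv
    have := congrFun e i
    rw [mulVec_diagonal] at this
    rw [← mul_right_cancel₀ hi this]
    refine Fin.cases ?_ (fun _ => ?_) i <;> simp [dA, abs_of_pos h0, h1]
  set T := ∑ j : Fin l, v j.succ.succ ^ 2 with hT
  have T0 : 0 ≤ T := by positivity
  have e1 : diagonal (dA η (l + 1)) *ᵥ v ⬝ᵥ diagonal (dA η (l + 1)) *ᵥ v =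
      η ^ 2 * (η * v 0) ^ 2 + (v 1 ^ 2 + T) := by
    simp [dotProduct, mulVec_diagonal, Fin.sum_univ_succ, dA, hT, sq]; ring
  have e2 : v ⬝ᵥ diagonal (dA η (l + 1)) *ᵥ v = (η * v 0) ^ 2 + (v 1 ^ 2 + T) := by
    simp [dotProduct, mulVec_diagonal, Fin.sum_univ_succ, dA, hT, sq]; ring
  have e3 : ((PP η c s l * Pi' (1 / 2) (diagonal (dA η (l + 1))) (diagonal (dA η l))
      (PP η c s l)) *ᵥ v) ⬝ᵥ diagonal (dA η (l + 1)) *ᵥ v =
      2 * (c * (η * v 0) + s * v 1) ^ 2 + 2 * T := by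
    rw [Pi', dinv h0, ← mulVec_mulVec, ← mulVec_mulVec, ← mulVec_mulVec, dotProduct_comm,
      dotProduct_mulVec, ← mulVec_transpose, smul_mulVec]
    have u : (PP η c s l)ᵀ *ᵥ diagonal (dA η (l + 1)) *ᵥ v =
        Fin.cons (2 * η * (c * (η * v 0) + s * v 1)) fun j => 2 * v j.succ.succ := by
      funext j
      simp only [mulVec, dotProduct, transpose_apply]
      refine Fin.cases ?_ (fun j => ?_) j <;>
        simp [PP, dA, Fin.sum_univ_succ, diagonal_apply]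
      ring
    rw [u]
    simp [dotProduct, mulVec_diagonal, Fin.sum_univ_succ, dA, hT, sq, Finset.mul_sum]
    congr 1
    · field_simp
    · exact Finset.sum_congr rfl fun _ _ => by ring
  rw [sub_dotProduct, e1, e2, e3]
  generalize η * v 0 = a
  generalize v 1 = b
  norm_num
  rw [← Real.sqrt_eq_rpow, ← Real.sqrt_eq_rpow]
  have x1 : η * |a| ≤ √(η ^ 2 * a ^ 2 + (b ^ 2 + T)) := Real.le_sqrt_of_sq_le (by
    rw [mul_pow, sq_abs]; nlinarith [sq_nonneg b])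
  have x2 : √(b ^ 2 + T) ≤ √(η ^ 2 * a ^ 2 + (b ^ 2 + T)) := Real.sqrt_le_sqrt (by
    nlinarith [mul_nonneg (sq_nonneg η) (sq_nonneg a)])
  have y1 : |a| ≤ √(a ^ 2 + (b ^ 2 + T)) := Real.abs_le_sqrt (by nlinarith [sq_nonneg b])
  have y2 : √(b ^ 2 + T) ≤ √(a ^ 2 + (b ^ 2 + T)) := Real.sqrt_le_sqrt (by nlinarith [sq_nonneg a])
  have z1 : |b| ≤ √(b ^ 2 + T) := Real.abs_le_sqrt (by linarith)
  have z2 := Real.mul_self_sqrt (show 0 ≤ b ^ 2 + T by positivity)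
  have p1 := mul_le_mul x1 y1 (abs_nonneg _) (Real.sqrt_nonneg _)
  have p2 := mul_le_mul (z1.trans x2) y1 (abs_nonneg _) (Real.sqrt_nonneg _)
  have p3 := mul_le_mul x2 y2 (Real.sqrt_nonneg _) (Real.sqrt_nonneg _)
  have q1 : |2 * c * s| ≤ 1 := abs_le.2 ⟨by nlinarith [sq_nonneg (c + s)], by
    nlinarith [sq_nonneg (c - s)]⟩
  have q2 : |2 * c * s * (b * a)| ≤ |b| * |a| := by
    rw [abs_mul, abs_mul b]; exact mul_le_of_le_one_left (by positivity) q1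
  have q3 : a ^ 2 + (b ^ 2 + T) - (2 * (c * a + s * b) ^ 2 + 2 * T) =
      -(η * a ^ 2) + η * b ^ 2 - T - 2 * (2 * c * s * (b * a)) := by
    linear_combination -a ^ 2 * hc - b ^ 2 * hs
  rw [mul_assoc, abs_mul_abs_self] at p1
  have := mul_nonneg h0.le (sq_nonneg a)
  have := mul_nonneg h0.le (sq_nonneg b)
  have := mul_le_of_le_one_left (sq_nonneg b) h1
  rw [q3, abs_le] at *
  constructor <;> nlinarith [sq_nonneg b]

lemma stp {η c s δ : ℝ} (h0 : 0 < η) (hc : 2 * c ^ 2 = 1 + η) (m l : ℕ) :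
    step (m + 1) (1 / 2) (diagonal (dA η (l + 1))) (diagonal (dA η l)) (PP η c s l) 1
      (single 0 0 (-δ)) = single 0 0 (-((1 - η ^ 2) ^ (2 * (m + 1)) * ((1 + η) * (1 + δ) - 1))) := by
  have K : (1 - (1 : ℝ)⁻¹ • diagonal (dA η (l + 1))) ^ (m + 1) =
      diagonal (Fin.cons ((1 - η ^ 2) ^ (m + 1)) fun _ => 0) := by
    rw [inv_one, one_smul, ← diagonal_one, diagonal_sub, diagonal_pow]
    congr 1; funext i
    refine Fin.cases ?_ (fun _ => ?_) i <;> simp [dA]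
  have X : (PP η c s l * (1 - single 0 0 (-δ) : Mat (l + 1) (l + 1)) * Pi' (1 / 2)
      (diagonal (dA η (l + 1))) (diagonal (dA η l)) (PP η c s l) : Mat (l + 2) (l + 2)) 0 0 = (1 + η) * (1 + δ) := by
    rw [Pi', dinv h0, mul_apply]
    simp only [mul_diagonal, diagonal_mul]
    simp [mul_apply, PP, dA, Fin.sum_univ_succ, (Fin.succ_ne_zero _).symm]
    field_simp
    linear_combination (1 + δ) * hc
  rw [step, K]
  ext i j
  rw [mul_diagonal, diagonal_mul]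
  refine Fin.cases ?_ (fun i => ?_) i <;> refine Fin.cases ?_ (fun j => ?_) j <;>
    simp [(Fin.succ_ne_zero _).symm]
  rw [one_div] at X
  erw [X]
  ring

theorem result (m : ℕ) (hm : 1 ≤ m) (D : ℝ) :
    ∃ (n : ℕ → ℕ) (A E : ∀ l, Mat (n l) (n l)) (P : ∀ l, Mat (n (l + 1)) (n l)) (Λ : ℕ → ℝ)
      (r : ℝ), 0 < r ∧ r < 1 ∧ (∀ l, (A l).PosDef) ∧
      (∀ l, Level 1 4 (1 / 2) r (A (l + 1)) (A l) (P l) (Λ l)) ∧ E 0 = 0 ∧
      (∀ l, E (l + 1) = step m r (A (l + 1)) (A l) (P l) (Λ l) (E l)) ∧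
      ∃ L v, v ≠ 0 ∧ D * (v ⬝ᵥ A L *ᵥ v) ≤ E L *ᵥ v ⬝ᵥ A L *ᵥ E L *ᵥ v := by
  obtain ⟨m, rfl⟩ : ∃ k, m = k + 1 := ⟨m - 1, by omega⟩
  obtain ⟨η, h0, h1, h2⟩ : ∃ η : ℝ, 0 < η ∧ η ≤ 1 ∧ (2 * (m + 1) : ℕ) * η = 1 / 4 := by
    refine ⟨1 / (8 * (m + 1)), by positivity, ?_, by push_cast; field_simp; ring⟩
    rw [div_le_one (by positivity)]; linarith [m.cast_nonneg (α := ℝ)]
  have θ := one_add_mul_le_pow (a := -η ^ 2) (by nlinarith) (2 * (m + 1))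
  rw [← sub_eq_add_neg, show (2 * (m + 1) : ℕ) * -η ^ 2 = -(η / 4) by
    linear_combination -η * h2] at θ
  let δ : ℕ → ℝ := fun l => l.rec 0 fun _ d => (1 - η ^ 2) ^ (2 * (m + 1)) * ((1 + η) * (1 + d) - 1)
  have hδ : ∀ l : ℕ, l * (η / 2) ≤ δ l := fun l => by
    induction l with
    | zero => simp [δ]
    | succ l ih =>
      have : 0 ≤ δ l := le_trans (by positivity) ih
      have := mul_le_mul_of_nonneg_right θ (show 0 ≤ (1 + η) * (1 + δ l) - 1 by nlinarith)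
      push_cast
      refine le_trans ?_ this
      nlinarith [mul_nonneg (mul_nonneg h0.le (sub_nonneg.2 h1)) ‹0 ≤ δ l›, mul_nonneg h0.le ‹0 ≤ δ l›,
        mul_nonneg h0.le (sub_nonneg.2 h1)]
  have hc : 2 * √((1 + η) / 2) ^ 2 = 1 + η := by rw [Real.sq_sqrt (by linarith)]; ring
  have hs : 2 * √((1 - η) / 2) ^ 2 = 1 - η := by rw [Real.sq_sqrt (by linarith)]; ring
  obtain ⟨L, hL⟩ := exists_nat_ge ((|D| + 1) / (η / 2))
  rw [div_le_iff₀ (by linarith)] at hL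
  refine ⟨fun l => l + 1, fun l => diagonal (dA η l), fun l => single 0 0 (-δ l),
    PP η _ _, fun _ => 1, 1 / 2, by norm_num, by norm_num,
    fun l => posDef_diagonal_iff.2 (dpos h0 l), lev h0 h1 hc hs, by simp [δ],
    fun l => (stp h0 hc m l).symm, L, Pi.single 0 1, by simp, ?_⟩
  have := hL.trans (hδ L)
  have a := mul_le_mul_of_nonneg_right (show D ≤ δ L * δ L by
    nlinarith [le_abs_self D, abs_nonneg D]) (sq_nonneg η)
  simp [dA, dotProduct, mulVec_diagonal, Fin.sum_univ_succ, (Fin.succ_ne_zero _).symm]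
  linarith

end Pool.Agent.Results.MP_89e789_an.No
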